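import Mathlib
import Pool.Agent.helper84.SG.Sphere

/-!
# Geometry of the sphere (MP_55470d_pr, module E1)
-/

set_option autoImplicit false
open MeasureTheory ProbabilityTheory Filter Topology
open scoped NNReal ENNReal

namespace Pool.Agent.helper78.SG
open Pool.Agent.helper84.SG

lemma sq_coord (x : S2) : x.1 0 ^ 2 + x.1 1 ^ 2 + x.1 2 ^ 2 = 1 := by
  have h := x.2
  rw [mem_sphere_zero_iff_norm, EuclideanSpace.norm_eq] at h
  have h2 : (∑ i, ‖(x : E3) i‖ ^ 2) = 1 := by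
    have := congrArg (· ^ 2) h
    simp only [one_pow] at this
    rwa [Real.sq_sqrt (Finset.sum_nonneg fun i _ => sq_nonneg _)] at this
  simpa [Fin.sum_univ_three, Real.norm_eq_abs, sq_abs] using h2

lemma coord_le (x : S2) : x.1 2 ≤ 1 := by
  nlinarith [sq_coord x, sq_nonneg (x.1 0), sq_nonneg (x.1 1)]

lemma coord_lt (x : S2) (h : x.1 2 ≠ 1) : x.1 2 < 1 := lt_of_le_of_ne (coord_le x) h

lemma pole_coord (x : S2) (h : x.1 2 = 1) : x.1 0 = 0 ∧ x.1 1 = 0 := by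
  have h1 := sq_coord x
  rw [h] at h1
  have h2 : x.1 0 ^ 2 + x.1 1 ^ 2 = 0 := by linarith
  constructor
  · nlinarith [sq_nonneg (x.1 0), sq_nonneg (x.1 1)]
  · nlinarith [sq_nonneg (x.1 0), sq_nonneg (x.1 1)]

lemma ext3 {x y : S2} (h0 : x.1 0 = y.1 0) (h1 : x.1 1 = y.1 1) (h2 : x.1 2 = y.1 2) :
    x = y := by
  apply Subtype.ext
  ext i
  fin_cases i
  · exact h0
  · exact h1
  · exact h2

lemma norm_sq_complex (a b : ℝ) : ‖(a : ℂ) + (b : ℂ) * Complex.I‖ ^ 2 = a ^ 2 + b ^ 2 := by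
  rw [← Complex.normSq_eq_norm_sq, Complex.normSq_add_mul_I]

theorem unit2_ev (x : S2) : Unit2 (ev x) := by
  unfold Unit2 ev
  split_ifs with h
  · simp
  · have hlt := coord_lt x h
    have h1 : 0 < 1 - x.1 2 := by linarith
    have hs := sq_coord x
    rw [norm_div, div_pow, norm_sq_complex, Complex.norm_real, Complex.norm_real,
      Real.norm_eq_abs, Real.norm_eq_abs, sq_abs, sq_abs, Real.sq_sqrt (by linarith),
      Real.sq_sqrt (by linarith)]
    field_simp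
    nlinarith

theorem measurable_ev : Measurable ev := by
  unfold ev
  have hc : ∀ i, Measurable fun x : S2 => x.1 i := fun i => by fun_prop
  refine Measurable.ite ?_ measurable_const ?_
  · exact measurableSet_eq_fun (hc 2) measurable_const
  · apply Measurable.prodMk
    · apply Measurable.div
      · apply Measurable.add
        · exact Complex.measurable_ofReal.comp (hc 0)
        · exact (Complex.measurable_ofReal.comp (hc 1)).mul_const _
      · apply Complex.measurable_ofReal.comp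
        exact Real.continuous_sqrt.measurable.comp ((measurable_const.sub (hc 2)).const_mul 2)
    · apply Complex.measurable_ofReal.comp
      exact Real.continuous_sqrt.measurable.comp ((measurable_const.sub (hc 2)).div_const 2)

lemma norm_sub_sq (x y : E3) : ‖x - y‖ ^ 2 =
    (x 0 - y 0) ^ 2 + (x 1 - y 1) ^ 2 + (x 2 - y 2) ^ 2 := by
  rw [EuclideanSpace.norm_eq, Real.sq_sqrt (Finset.sum_nonneg fun i _ => sq_nonneg _)]
  simp [Fin.sum_univ_three, Real.norm_eq_abs, sq_abs]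

theorem ip2_ev (x y : S2) : ip2 (ev x) (ev y) = 1 - ‖(x : E3) - (y : E3)‖ ^ 2 / 4 := by
  have hx := sq_coord x
  have hy := sq_coord y
  rw [norm_sub_sq]
  unfold ip2 ev
  split_ifs with h h' h'
  · obtain ⟨h1, h2⟩ := pole_coord x h
    obtain ⟨h3, h4⟩ := pole_coord y h'
    rw [h, h', h1, h2, h3, h4]
    simp
  · obtain ⟨h1, h2⟩ := pole_coord x h
    have hlt := coord_lt y h'
    have hp : 0 < 1 - y.1 2 := by linarith
    simp only [one_mul, zero_mul, add_zero, RCLike.norm_conj]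
    rw [norm_div, div_pow, norm_sq_complex, Complex.norm_real, Real.norm_eq_abs, sq_abs,
      Real.sq_sqrt (by linarith), h, h1, h2]
    field_simp
    nlinarith
  · obtain ⟨h1, h2⟩ := pole_coord y h'
    have hlt := coord_lt x h
    have hp : 0 < 1 - x.1 2 := by linarith
    simp only [map_one, map_zero, mul_one, mul_zero, add_zero]
    rw [norm_div, div_pow, norm_sq_complex, Complex.norm_real, Real.norm_eq_abs, sq_abs,
      Real.sq_sqrt (by linarith), h', h1, h2]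
    field_simp
    nlinarith
  · have hlt := coord_lt x h
    have hp : 0 < 1 - x.1 2 := by linarith
    have hlt' := coord_lt y h'
    have hp' : 0 < 1 - y.1 2 := by linarith
    set a := x.1 0
    set b := x.1 1
    set c := x.1 2
    set a' := y.1 0
    set b' := y.1 1
    set c' := y.1 2
    obtain ⟨s, hs, hss⟩ : ∃ s : ℝ, 0 < s ∧ s ^ 2 = 1 - c :=
      ⟨Real.sqrt (1 - c), Real.sqrt_pos.2 hp, Real.sq_sqrt hp.le⟩
    obtain ⟨s', hs', hss'⟩ : ∃ s : ℝ, 0 < s ∧ s ^ 2 = 1 - c' :=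
      ⟨Real.sqrt (1 - c'), Real.sqrt_pos.2 hp', Real.sq_sqrt hp'.le⟩
    obtain ⟨r, hr, hrr⟩ : ∃ s : ℝ, 0 < s ∧ s ^ 2 = 2 :=
      ⟨Real.sqrt 2, by positivity, Real.sq_sqrt (by norm_num)⟩
    have e1 : Real.sqrt (2 * (1 - c)) = r * s := by
      rw [← hss, ← hrr, ← mul_pow, Real.sqrt_sq (by positivity)]
    have e1' : Real.sqrt (2 * (1 - c')) = r * s' := by
      rw [← hss', ← hrr, ← mul_pow, Real.sqrt_sq (by positivity)]
    have e2 : Real.sqrt ((1 - c) / 2) = s / r := by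
      rw [← hss, ← hrr, ← div_pow, Real.sqrt_sq (by positivity)]
    have e2' : Real.sqrt ((1 - c') / 2) = s' / r := by
      rw [← hss', ← hrr, ← div_pow, Real.sqrt_sq (by positivity)]
    rw [e1, e1', e2, e2']
    have key : ((a : ℂ) + (b : ℂ) * Complex.I) / (((r * s : ℝ)) : ℂ) *
        (starRingEnd ℂ) (((a' : ℂ) + (b' : ℂ) * Complex.I) / (((r * s' : ℝ)) : ℂ)) +
        (((s / r : ℝ)) : ℂ) * (starRingEnd ℂ) (((s' / r : ℝ)) : ℂ) =
        (((a * a' + b * b' + (s * s') ^ 2) / (r ^ 2 * s * s') : ℝ) : ℂ) +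
        ((((b * a' - a * b') / (r ^ 2 * s * s') : ℝ)) : ℂ) * Complex.I := by
      have hr' : (r : ℂ) ≠ 0 := by exact_mod_cast hr.ne'
      have hs1 : (s : ℂ) ≠ 0 := by exact_mod_cast hs.ne'
      have hs2 : (s' : ℂ) ≠ 0 := by exact_mod_cast hs'.ne'
      simp only [map_div₀, map_add, map_mul, Complex.conj_ofReal, Complex.conj_I]
      push_cast
      field_simp
      ring_nf
      simp only [Complex.I_sq]
      ring
    rw [key, norm_sq_complex]
    have hc : c = 1 - s ^ 2 := by linarith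
    have hc' : c' = 1 - s' ^ 2 := by linarith
    have hab : a ^ 2 + b ^ 2 = s ^ 2 * (2 - s ^ 2) := by
      rw [hc] at hx; linarith
    have hab' : a' ^ 2 + b' ^ 2 = s' ^ 2 * (2 - s' ^ 2) := by
      rw [hc'] at hy; linarith
    have hprod : (a * a' + b * b') ^ 2 + (b * a' - a * b') ^ 2 =
        (s ^ 2 * (2 - s ^ 2)) * (s' ^ 2 * (2 - s' ^ 2)) := by
      rw [← hab, ← hab']; ring
    have e3 : ((a * a' + b * b' + (s * s') ^ 2) / (r ^ 2 * s * s')) ^ 2 +
        ((b * a' - a * b') / (r ^ 2 * s * s')) ^ 2 =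
        ((a * a' + b * b' + (s * s') ^ 2) ^ 2 + (b * a' - a * b') ^ 2) /
          (4 * (s * s') ^ 2) := by
      rw [div_pow, div_pow, ← add_div]
      congr 1
      rw [hrr]; ring
    rw [e3]
    have e4 : (a * a' + b * b' + (s * s') ^ 2) ^ 2 + (b * a' - a * b') ^ 2 =
        (s * s') ^ 2 * ((2 - s ^ 2) * (2 - s' ^ 2) + 2 * (a * a' + b * b') + (s * s') ^ 2) := by
      have : (a * a' + b * b' + (s * s') ^ 2) ^ 2 + (b * a' - a * b') ^ 2 =
        ((a * a' + b * b') ^ 2 + (b * a' - a * b') ^ 2) +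
          (s * s') ^ 2 * (2 * (a * a' + b * b') + (s * s') ^ 2) := by ring
      rw [this, hprod]; ring
    rw [e4, mul_comm (4 : ℝ), mul_div_mul_left _ _ (by positivity)]
    have e5 : (a - a') ^ 2 + (b - b') ^ 2 = s ^ 2 * (2 - s ^ 2) + s' ^ 2 * (2 - s' ^ 2)
        - 2 * (a * a' + b * b') := by
      rw [← hab, ← hab']; ring
    rw [e5, hc, hc']
    ring

/-- explicit inverse of the stereographic projection -/
noncomputable def inv3 (w : ℂ) : E3 :=
  WithLp.toLp 2 ![2 * w.re / (‖w‖ ^ 2 + 1), 2 * w.im / (‖w‖ ^ 2 + 1),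
    (‖w‖ ^ 2 - 1) / (‖w‖ ^ 2 + 1)]

lemma inv3_0 (w : ℂ) : inv3 w 0 = 2 * w.re / (‖w‖ ^ 2 + 1) := rfl
lemma inv3_1 (w : ℂ) : inv3 w 1 = 2 * w.im / (‖w‖ ^ 2 + 1) := rfl
lemma inv3_2 (w : ℂ) : inv3 w 2 = (‖w‖ ^ 2 - 1) / (‖w‖ ^ 2 + 1) := rfl

lemma norm_sq_re_im (w : ℂ) : ‖w‖ ^ 2 = w.re ^ 2 + w.im ^ 2 := by
  rw [← Complex.normSq_eq_norm_sq, Complex.normSq_apply]; ring

lemma inv3_mem (w : ℂ) : inv3 w ∈ Metric.sphere (0 : E3) 1 := by
  rw [mem_sphere_zero_iff_norm, EuclideanSpace.norm_eq]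
  have : ∑ i, ‖(inv3 w) i‖ ^ 2 = 1 := by
    simp only [Fin.sum_univ_three, Real.norm_eq_abs, sq_abs, inv3_0, inv3_1, inv3_2]
    have hp : (0:ℝ) < ‖w‖ ^ 2 + 1 := by positivity
    have h := norm_sq_re_im w
    set N := ‖w‖ ^ 2
    rw [div_pow, div_pow, div_pow, ← add_div, ← add_div, div_eq_one_iff_eq (by positivity)]
    have : w.re ^ 2 + w.im ^ 2 = N := h.symm
    nlinarith
  rw [this, Real.sqrt_one]

/-- the inverse point on the sphere -/
noncomputable def inv2 (w : ℂ) : S2 := ⟨inv3 w, inv3_mem w⟩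

lemma inv2_ne (w : ℂ) : (inv2 w).1 2 ≠ 1 := by
  show inv3 w 2 ≠ 1
  rw [inv3_2]
  have hp : (0:ℝ) < ‖w‖ ^ 2 + 1 := by positivity
  intro h
  rw [div_eq_one_iff_eq hp.ne'] at h
  linarith

lemma ster_inv2 (w : ℂ) : ster (inv2 w) = (w : OnePoint ℂ) := by
  unfold ster
  rw [if_neg (inv2_ne w)]
  congr 1
  show ((inv3 w 0 : ℂ) + (inv3 w 1 : ℂ) * Complex.I) / (1 - (inv3 w 2 : ℂ)) = w
  have hp : (0:ℝ) < ‖w‖ ^ 2 + 1 := by positivity
  rw [inv3_0, inv3_1, inv3_2]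
  have hp' : ((‖w‖ : ℂ) ^ 2 + 1) ≠ 0 := by
    have : (((‖w‖ ^ 2 + 1 : ℝ)) : ℂ) ≠ 0 := by exact_mod_cast hp.ne'
    simpa using this
  have h1 : (1 : ℂ) - (((‖w‖ ^ 2 - 1) / (‖w‖ ^ 2 + 1) : ℝ) : ℂ) = 2 / ((‖w‖ : ℂ) ^ 2 + 1) := by
    push_cast
    field_simp
    ring
  rw [h1]
  have h2 : ((2 * w.re / (‖w‖ ^ 2 + 1) : ℝ) : ℂ) + ((2 * w.im / (‖w‖ ^ 2 + 1) : ℝ) : ℂ) * Complex.I
      = 2 * w / ((‖w‖ : ℂ) ^ 2 + 1) := by
    have h3 : 2 * w / ((‖w‖ : ℂ) ^ 2 + 1) =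
        2 * ((w.re : ℂ) + (w.im : ℂ) * Complex.I) / ((‖w‖ : ℂ) ^ 2 + 1) := by
      rw [Complex.re_add_im w]
    rw [h3]
    push_cast
    field_simp
  rw [h2]
  field_simp

lemma inv2_ster (x : S2) (h : x.1 2 ≠ 1) :
    inv2 (((x.1 0 : ℂ) + (x.1 1 : ℂ) * Complex.I) / (1 - (x.1 2 : ℂ))) = x := by
  have hlt := coord_lt x h
  have hp : 0 < 1 - x.1 2 := by linarith
  have hs := sq_coord x
  set a := x.1 0 with ha
  set b := x.1 1 with hb
  set c := x.1 2 with hc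
  set w : ℂ := ((a : ℂ) + (b : ℂ) * Complex.I) / (1 - (c : ℂ)) with hw
  have hw2 : w = ((a / (1 - c) : ℝ) : ℂ) + ((b / (1 - c) : ℝ) : ℂ) * Complex.I := by
    rw [hw]
    have h0 : ((1 : ℂ) - (c : ℂ)) ≠ 0 := by
      rw [← Complex.ofReal_one, ← Complex.ofReal_sub]
      exact Complex.ofReal_ne_zero.2 hp.ne'
    push_cast
    field_simp
  have hre : w.re = a / (1 - c) := by
    rw [hw2, Complex.add_re, Complex.mul_re, Complex.I_re, Complex.I_im, Complex.ofReal_re,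
      Complex.ofReal_im]
    ring
  have him : w.im = b / (1 - c) := by
    rw [hw2, Complex.add_im, Complex.mul_im, Complex.I_re, Complex.I_im, Complex.ofReal_re,
      Complex.ofReal_im]
    ring
  have hN : ‖w‖ ^ 2 = (1 + c) / (1 - c) := by
    rw [norm_sq_re_im, hre, him, div_pow, div_pow, ← add_div]
    rw [div_eq_div_iff (by positivity) (by positivity)]
    have : a ^ 2 + b ^ 2 = (1 - c) * (1 + c) := by nlinarith
    rw [this]; ring
  have hN1 : ‖w‖ ^ 2 + 1 = 2 / (1 - c) := by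
    rw [hN]; field_simp; ring
  apply ext3
  · show inv3 w 0 = a
    rw [inv3_0, hN1, hre]; field_simp
  · show inv3 w 1 = b
    rw [inv3_1, hN1, him]; field_simp
  · show inv3 w 2 = c
    rw [inv3_2, hN1, hN]; field_simp; ring

theorem bijective_ster : Function.Bijective ster := by
  constructor
  · intro x y hxy
    unfold ster at hxy
    split_ifs at hxy with h h' h'
    · obtain ⟨h1, h2⟩ := pole_coord x h
      obtain ⟨h3, h4⟩ := pole_coord y h'
      exact ext3 (h1.trans h3.symm) (h2.trans h4.symm) (h.trans h'.symm)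
    · exact absurd hxy.symm (OnePoint.coe_ne_infty _)
    · exact absurd hxy (OnePoint.coe_ne_infty _)
    · rw [← inv2_ster x h, ← inv2_ster y h']
      rw [OnePoint.coe_injective hxy]
  · intro w
    induction w using OnePoint.rec with
    | infty =>
      refine ⟨⟨EuclideanSpace.single 2 1, by simp⟩, ?_⟩
      unfold ster
      simp
    | coe w => exact ⟨inv2 w, ster_inv2 w⟩

lemma sterInv_coe (w : ℂ) : sterInv (w : OnePoint ℂ) = inv2 w := by
  unfold sterInv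
  rw [← ster_inv2 w]
  exact Function.leftInverse_invFun bijective_ster.1 _

/-- chordal distance; explicit inverse: `(2 Re w, 2 Im w, |w|²-1)/(|w|²+1)` -/
theorem norm_sub_sterInv (x : S2) (w : ℂ) :
    ‖(x : E3) - (sterInv (w : OnePoint ℂ) : E3)‖ / 2 =
      ‖(ev x).1 - (ev x).2 * w‖ / Real.sqrt (1 + ‖w‖ ^ 2) := by
  rw [sterInv_coe]
  have hx := sq_coord x
  have hp : (0:ℝ) < ‖w‖ ^ 2 + 1 := by positivity
  have hN := norm_sq_re_im w
  have key : (‖(x : E3) - (inv2 w : E3)‖ / 2) ^ 2 =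
      (‖(ev x).1 - (ev x).2 * w‖ / Real.sqrt (1 + ‖w‖ ^ 2)) ^ 2 := by
    rw [div_pow, div_pow, Real.sq_sqrt (by positivity), norm_sub_sq]
    show ((x.1 0 - inv3 w 0) ^ 2 + (x.1 1 - inv3 w 1) ^ 2 + (x.1 2 - inv3 w 2) ^ 2) / 2 ^ 2 = _
    rw [inv3_0, inv3_1, inv3_2]
    unfold ev
    split_ifs with h
    · obtain ⟨h1, h2⟩ := pole_coord x h
      simp only [zero_mul, sub_zero, norm_one, one_pow]
      rw [h, h1, h2]
      have e0 : (1 - (‖w‖ ^ 2 - 1) / (‖w‖ ^ 2 + 1)) = 2 / (‖w‖ ^ 2 + 1) := by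
        field_simp; ring
      rw [e0]
      have e1 : (0 - 2 * w.re / (‖w‖ ^ 2 + 1)) ^ 2 + (0 - 2 * w.im / (‖w‖ ^ 2 + 1)) ^ 2 +
          (2 / (‖w‖ ^ 2 + 1)) ^ 2 = 4 * ((w.re ^ 2 + w.im ^ 2) + 1) / (‖w‖ ^ 2 + 1) ^ 2 := by
        generalize ‖w‖ ^ 2 + 1 = q
        ring
      rw [e1, ← hN, add_comm (1:ℝ)]
      field_simp
      norm_num
    · have hlt := coord_lt x h
      have hq : 0 < 1 - x.1 2 := by linarith
      set a := x.1 0
      set b := x.1 1
      set c := x.1 2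
      obtain ⟨s, hs, hss⟩ : ∃ s : ℝ, 0 < s ∧ s ^ 2 = 1 - c :=
        ⟨Real.sqrt (1 - c), Real.sqrt_pos.2 hq, Real.sq_sqrt hq.le⟩
      obtain ⟨r, hr, hrr⟩ : ∃ s : ℝ, 0 < s ∧ s ^ 2 = 2 :=
        ⟨Real.sqrt 2, by positivity, Real.sq_sqrt (by norm_num)⟩
      have e1 : Real.sqrt (2 * (1 - c)) = r * s := by
        rw [← hss, ← hrr, ← mul_pow, Real.sqrt_sq (by positivity)]
      have e2 : Real.sqrt ((1 - c) / 2) = s / r := by
        rw [← hss, ← hrr, ← div_pow, Real.sqrt_sq (by positivity)]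
      simp only
      rw [e1, e2]
      have e3 : ((a : ℂ) + (b : ℂ) * Complex.I) / (((r * s : ℝ)) : ℂ) -
          (((s / r : ℝ)) : ℂ) * w =
          (((a - s ^ 2 * w.re) / (r * s) : ℝ) : ℂ) +
          (((b - s ^ 2 * w.im) / (r * s) : ℝ) : ℂ) * Complex.I := by
        have hr' : (r : ℂ) ≠ 0 := by exact_mod_cast hr.ne'
        have hs1 : (s : ℂ) ≠ 0 := by exact_mod_cast hs.ne'
        conv_lhs => rw [← Complex.re_add_im w]
        push_cast
        field_simp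
        ring
      rw [e3, norm_sq_complex, div_pow, div_pow, ← add_div, mul_pow, hrr]
      have hc : c = 1 - s ^ 2 := by linarith
      have hab : a ^ 2 + b ^ 2 = s ^ 2 * (2 - s ^ 2) := by
        rw [hc] at hx; linarith
      have e4 : (a - s ^ 2 * w.re) ^ 2 + (b - s ^ 2 * w.im) ^ 2 =
          s ^ 2 * (2 - s ^ 2 - 2 * (a * w.re + b * w.im) + s ^ 2 * ‖w‖ ^ 2) := by
        have : (a - s ^ 2 * w.re) ^ 2 + (b - s ^ 2 * w.im) ^ 2 =
          (a ^ 2 + b ^ 2) - 2 * s ^ 2 * (a * w.re + b * w.im) + s ^ 4 * (w.re ^ 2 + w.im ^ 2) := by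
            ring
        rw [this, hab, hN]; ring
      rw [e4, mul_comm (2:ℝ) (s ^ 2), mul_div_mul_left _ _ (by positivity)]
      have e5 : (a - 2 * w.re / (‖w‖ ^ 2 + 1)) ^ 2 + (b - 2 * w.im / (‖w‖ ^ 2 + 1)) ^ 2 +
          (c - (‖w‖ ^ 2 - 1) / (‖w‖ ^ 2 + 1)) ^ 2 =
          (a ^ 2 + b ^ 2 + c ^ 2) + 4 * (w.re ^ 2 + w.im ^ 2) / (‖w‖ ^ 2 + 1) ^ 2
          + (‖w‖ ^ 2 - 1) ^ 2 / (‖w‖ ^ 2 + 1) ^ 2
          - 4 * (a * w.re + b * w.im) / (‖w‖ ^ 2 + 1)
          - 2 * c * (‖w‖ ^ 2 - 1) / (‖w‖ ^ 2 + 1) := by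
        generalize ‖w‖ ^ 2 - 1 = q'
        generalize ‖w‖ ^ 2 + 1 = q
        ring
      rw [e5, hx, ← hN, hc, add_comm (1:ℝ) (‖w‖ ^ 2)]
      generalize ‖w‖ ^ 2 = N at hp
      field_simp
      ring
  exact (pow_left_inj₀ (by positivity) (by positivity) two_ne_zero).1 key

end Pool.Agent.helper78.SG
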