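import Mathlib
import Pool.Agent.helper78.SG.E1

/-!
# The uniform measure on the sphere (MP_55470d_pr, module E2)
-/

set_option autoImplicit false
open MeasureTheory ProbabilityTheory Filter Topology
open scoped NNReal ENNReal Pointwise

namespace Pool.Agent.helper78.SG
open Pool.Agent.helper84.SG

/-- the volume of the unit ball -/
noncomputable def V1 : ℝ≥0∞ := (volume : Measure E3) (Metric.ball 0 1)

lemma V1_pos : V1 ≠ 0 := (Metric.measure_ball_pos volume (0 : E3) one_pos).ne'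

lemma V1_top : V1 ≠ ∞ := measure_ball_lt_top.ne

lemma dim3 : (Module.finrank ℝ E3 : ℝ≥0∞) = 3 := by simp

lemma toSphere_univ : (volume : Measure E3).toSphere Set.univ = 3 * V1 := by
  rw [Measure.toSphere_apply_univ, dim3]; rfl

lemma tS_ne : (3 * V1 : ℝ≥0∞) ≠ 0 := mul_ne_zero (by norm_num) V1_pos

lemma tS_top : (3 * V1 : ℝ≥0∞) ≠ ∞ := ENNReal.mul_ne_top (by norm_num) V1_top

theorem isProb_nu : IsProbabilityMeasure nu := by
  constructor
  unfold nu
  rw [Measure.smul_apply, toSphere_univ, smul_eq_mul, ENNReal.inv_mul_cancel tS_ne tS_top]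

lemma nu_apply {s : Set S2} (hs : MeasurableSet s) :
    nu s = V1⁻¹ * volume (Set.Ioo (0:ℝ) 1 • ((↑) '' s : Set E3)) := by
  unfold nu
  rw [Measure.smul_apply, toSphere_univ, smul_eq_mul, Measure.toSphere_apply' _ hs, dim3,
    ← mul_assoc, ENNReal.mul_inv (Or.inl (by norm_num)) (Or.inl (by norm_num))]
  congr 1
  rw [mul_comm, ← mul_assoc, ENNReal.mul_inv_cancel (by norm_num) (by norm_num), one_mul]

/-- cap bound -/
lemma nu_ball_le (x : S2) {r : ℝ} (hr : 0 < r) (hr2 : r ≤ 2) :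
    nu (Metric.closedBall x r) ≤ ENNReal.ofReal (81 * r ^ 2) := by
  rw [nu_apply Metric.isClosed_closedBall.measurableSet]
  set N : ℕ := ⌊1 / r⌋₊ with hN
  have hsub : (Set.Ioo (0:ℝ) 1 • ((↑) '' (Metric.closedBall x r) : Set E3)) ⊆
      ⋃ k ∈ Finset.range (N + 1), Metric.closedBall (((k : ℝ) * r) • (x : E3)) (2 * r) := by
    rintro z ⟨t, ht, y, ⟨y', hy', rfl⟩, rfl⟩
    simp only [Set.mem_iUnion, Finset.mem_range, exists_prop]
    refine ⟨⌊t / r⌋₊, ?_, ?_⟩
    · have : ⌊t / r⌋₊ ≤ N := by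
        apply Nat.floor_le_floor
        gcongr
        exact ht.2.le
      omega
    · rw [Metric.mem_closedBall, dist_eq_norm]
      have h1 : (⌊t / r⌋₊ : ℝ) ≤ t / r := Nat.floor_le (div_nonneg ht.1.le hr.le)
      have h2 : t / r < ⌊t / r⌋₊ + 1 := Nat.lt_floor_add_one _
      rw [le_div_iff₀ hr] at h1
      rw [div_lt_iff₀ hr] at h2
      have h3 : t • (y' : E3) - ((⌊t / r⌋₊ : ℝ) * r) • (x : E3) =
          t • ((y' : E3) - (x : E3)) + (t - (⌊t / r⌋₊ : ℝ) * r) • (x : E3) := by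
        rw [smul_sub, sub_smul]; abel
      show ‖t • (y' : E3) - ((⌊t / r⌋₊ : ℝ) * r) • (x : E3)‖ ≤ 2 * r
      rw [h3]
      refine (norm_add_le _ _).trans ?_
      rw [norm_smul, norm_smul, mem_sphere_zero_iff_norm.1 x.2, mul_one, Real.norm_eq_abs,
        Real.norm_eq_abs, abs_of_pos ht.1, abs_of_nonneg (by linarith)]
      have h4 : ‖(y' : E3) - (x : E3)‖ ≤ r := by
        rw [← dist_eq_norm]; exact hy'
      have h5 : t * ‖(y' : E3) - (x : E3)‖ ≤ 1 * r :=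
        mul_le_mul ht.2.le h4 (norm_nonneg _) zero_le_one
      linarith
  have hvol : ∀ k : ℕ, volume (Metric.closedBall (((k : ℝ) * r) • (x : E3)) (2 * r)) =
      ENNReal.ofReal ((2 * r) ^ 3) * V1 := by
    intro k
    rw [Measure.addHaar_closedBall _ _ (by positivity)]
    simp only [finrank_euclideanSpace, Fintype.card_fin]
    rfl
  have h1 : volume (Set.Ioo (0:ℝ) 1 • ((↑) '' (Metric.closedBall x r) : Set E3)) ≤
      (N + 1 : ℕ) * (ENNReal.ofReal ((2 * r) ^ 3) * V1) := by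
    refine (measure_mono hsub).trans ((measure_biUnion_finset_le _ _).trans ?_)
    rw [Finset.sum_congr rfl fun k _ => hvol k, Finset.sum_const, Finset.card_range, nsmul_eq_mul]
  calc V1⁻¹ * volume (Set.Ioo (0:ℝ) 1 • ((↑) '' (Metric.closedBall x r) : Set E3))
      ≤ V1⁻¹ * ((N + 1 : ℕ) * (ENNReal.ofReal ((2 * r) ^ 3) * V1)) := by gcongr
    _ = (N + 1 : ℕ) * ENNReal.ofReal ((2 * r) ^ 3) := by
        rw [← mul_assoc, ← mul_assoc, mul_comm V1⁻¹, mul_assoc, mul_assoc,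
          mul_comm (ENNReal.ofReal _), ← mul_assoc (V1⁻¹), ENNReal.inv_mul_cancel V1_pos V1_top,
          one_mul]
    _ = ENNReal.ofReal (((N + 1 : ℕ) : ℝ) * (2 * r) ^ 3) := by
        rw [ENNReal.ofReal_mul (by positivity), ENNReal.ofReal_natCast]
    _ ≤ ENNReal.ofReal (81 * r ^ 2) := by
        apply ENNReal.ofReal_le_ofReal
        have h2 : (N : ℝ) ≤ 1 / r := Nat.floor_le (by positivity)
        rw [le_div_iff₀ hr] at h2
        push_cast
        have h3 : ((N : ℝ) + 1) * (2 * r) ^ 3 = 8 * r ^ 2 * (N * r + r) := by ring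
        rw [h3]
        have h4 : (N : ℝ) * r + r ≤ 3 := by linarith
        nlinarith [sq_nonneg r, mul_le_mul_of_nonneg_left h4 (by positivity : (0:ℝ) ≤ 8 * r ^ 2)]

theorem nu_singleton (x : S2) : nu {x} = 0 := by
  have h : ∀ k : ℕ, nu {x} ≤ ENNReal.ofReal (81 * (1 / ((k : ℝ) + 1)) ^ 2) := by
    intro k
    have hk : (0:ℝ) < 1 / ((k : ℝ) + 1) := by positivity
    refine (measure_mono ?_).trans (nu_ball_le x hk ?_)
    · intro y hy
      rw [Set.mem_singleton_iff.1 hy]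
      exact Metric.mem_closedBall_self hk.le
    · rw [div_le_iff₀ (by positivity)]
      have : (0:ℝ) ≤ k := by positivity
      linarith
  have hlim : Tendsto (fun k : ℕ => ENNReal.ofReal (81 * (1 / ((k : ℝ) + 1)) ^ 2)) atTop (𝓝 0) := by
    rw [← ENNReal.ofReal_zero]
    apply ENNReal.tendsto_ofReal
    have := (tendsto_one_div_add_atTop_nhds_zero_nat (𝕜 := ℝ)).pow 2 |>.const_mul 81
    simpa using this
  exact le_antisymm (ge_of_tendsto' hlim h) bot_le

lemma dist_le_two (x y : S2) : dist x y ≤ 2 := by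
  rw [Subtype.dist_eq, dist_eq_norm]
  have h1 := norm_sub_le (x : E3) (y : E3)
  have h2 := mem_sphere_zero_iff_norm.1 x.2
  have h3 := mem_sphere_zero_iff_norm.1 y.2
  rw [h2, h3] at h1
  linarith

/-- dyadic bound of the kernel -/
lemma kernel_le {s : ℝ} (hs0 : 0 ≤ s) {t : ℝ} (ht : 0 < t) (ht2 : t ≤ 2) :
    ∃ k : ℕ, t ≤ 2 * (1 / 2 : ℝ) ^ k ∧ (t ^ 2 / 4) ^ (-s) ≤ (4 ^ s) ^ (k + 1) := by
  obtain ⟨k, hk1, hk2⟩ := exists_nat_pow_near_of_lt_one (x := t / 2) (y := (1/2 : ℝ))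
    (by positivity) (by linarith) (by norm_num) (by norm_num)
  refine ⟨k, by linarith, ?_⟩
  have h1 : ((1/2 : ℝ) ^ (k + 1)) ^ 2 ≤ t ^ 2 / 4 := by
    have : t ^ 2 / 4 = (t / 2) ^ 2 := by ring
    rw [this]
    have := hk1.le
    gcongr
  have h2 : (t ^ 2 / 4) ^ (-s) ≤ (((1/2 : ℝ) ^ (k + 1)) ^ 2) ^ (-s) := by
    rw [Real.rpow_neg (by positivity), Real.rpow_neg (by positivity)]
    gcongr
  refine h2.trans (le_of_eq ?_)
  have h3 : ((1/2 : ℝ) ^ (k + 1)) ^ 2 = ((4 : ℝ) ^ (k + 1))⁻¹ := by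
    rw [← pow_mul, mul_comm, pow_mul, ← inv_pow]
    norm_num
  rw [h3, Real.rpow_neg (by positivity), Real.inv_rpow (by positivity), inv_inv,
    ← Real.rpow_natCast 4 (k + 1), ← Real.rpow_mul (by norm_num), mul_comm,
    Real.rpow_mul (by norm_num), Real.rpow_natCast]

/-- the dyadic majorant -/
noncomputable def maj (s : ℝ) (x y : S2) : ℝ≥0∞ :=
  ∑' k : ℕ, ENNReal.ofReal ((4 ^ s) ^ (k + 1)) *
    (Metric.closedBall x (2 * (1 / 2 : ℝ) ^ k)).indicator 1 y

lemma ofReal_kernel_le {s : ℝ} (hs0 : 0 ≤ s) (x y : S2) :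
    ENNReal.ofReal ((dist x y ^ 2 / 4) ^ (-s)) ≤ maj s x y := by
  have h4 : (1:ℝ) ≤ 4 ^ s := Real.one_le_rpow (by norm_num) hs0
  have key : ∃ k : ℕ, dist x y ≤ 2 * (1 / 2 : ℝ) ^ k ∧
      (dist x y ^ 2 / 4) ^ (-s) ≤ (4 ^ s) ^ (k + 1) := by
    rcases eq_or_lt_of_le (dist_nonneg : 0 ≤ dist x y) with h | h
    · refine ⟨0, by rw [← h]; norm_num, ?_⟩
      rw [← h]
      norm_num
      refine le_trans ?_ h4
      rcases eq_or_lt_of_le hs0 with h0 | h0
      · rw [← h0]; simp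
      · rw [Real.zero_rpow (by linarith)]; norm_num
    · exact kernel_le hs0 h (dist_le_two x y)
  obtain ⟨k, hk1, hk2⟩ := key
  unfold maj
  refine le_trans ?_ (ENNReal.le_tsum k)
  have hmem : y ∈ Metric.closedBall x (2 * (1 / 2 : ℝ) ^ k) := by
    rw [Metric.mem_closedBall, dist_comm]; exact hk1
  rw [Set.indicator_of_mem hmem, Pi.one_apply, mul_one]
  exact ENNReal.ofReal_le_ofReal hk2

/-- the bound -/
noncomputable def Cb (s : ℝ) : ℝ≥0∞ :=
  ∑' k : ℕ, ENNReal.ofReal ((4 ^ s) ^ (k + 1)) * ENNReal.ofReal (81 * (2 * (1 / 2 : ℝ) ^ k) ^ 2)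

lemma lintegral_maj_le (s : ℝ) (x : S2) : ∫⁻ y, maj s x y ∂nu ≤ Cb s := by
  unfold maj Cb
  rw [lintegral_tsum]
  · apply ENNReal.tsum_le_tsum
    intro k
    rw [lintegral_const_mul _ (measurable_one.indicator Metric.isClosed_closedBall.measurableSet),
      lintegral_indicator_one Metric.isClosed_closedBall.measurableSet]
    gcongr
    apply nu_ball_le x (by positivity)
    have : (1 / 2 : ℝ) ^ k ≤ 1 := pow_le_one₀ (by norm_num) (by norm_num)
    linarith
  · intro k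
    exact ((measurable_one.indicator Metric.isClosed_closedBall.measurableSet).const_mul
      _).aemeasurable

lemma Cb_lt_top {s : ℝ} (hs : s < 1) : Cb s < ∞ := by
  unfold Cb
  have h1 : ∀ k : ℕ, ENNReal.ofReal ((4 ^ s) ^ (k + 1)) *
      ENNReal.ofReal (81 * (2 * (1 / 2 : ℝ) ^ k) ^ 2) =
      ENNReal.ofReal ((324 * 4 ^ s) * (4 ^ s / 4) ^ k) := by
    intro k
    rw [← ENNReal.ofReal_mul (by positivity)]
    congr 1
    have : ((1 / 2 : ℝ) ^ k) ^ 2 = (1 / 4) ^ k := by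
      rw [← pow_mul, mul_comm, pow_mul]; norm_num
    rw [mul_pow, this, div_pow, div_pow, one_pow, pow_succ]
    ring
  simp_rw [h1]
  have hlt : (4:ℝ) ^ s / 4 < 1 := by
    rw [div_lt_one (by norm_num)]
    calc (4:ℝ) ^ s < 4 ^ (1:ℝ) := Real.rpow_lt_rpow_of_exponent_lt (by norm_num) hs
      _ = 4 := Real.rpow_one 4
  have hsum : Summable fun k : ℕ => (324 * (4:ℝ) ^ s) * (4 ^ s / 4) ^ k :=
    (summable_geometric_of_lt_one (by positivity) hlt).mul_left _
  rw [← ENNReal.ofReal_tsum_of_nonneg (fun k => by positivity) hsum]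
  exact ENNReal.ofReal_lt_top

/-- `|x - y|^{-2s}` is integrable for `s < 1` -/
theorem integrable_kernel (s : ℝ) (hs0 : 0 ≤ s) (hs : s < 1) :
    Integrable (fun p : S2 × S2 => (1 - ip2 (ev p.1) (ev p.2)) ^ (-s)) (nu.prod nu) := by
  haveI := isProb_nu
  have h1 : (fun p : S2 × S2 => (1 - ip2 (ev p.1) (ev p.2)) ^ (-s)) =
      fun p : S2 × S2 => (dist p.1 p.2 ^ 2 / 4) ^ (-s) := by
    funext p
    rw [ip2_ev, Subtype.dist_eq, dist_eq_norm]
    congr 1
    ring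
  rw [h1]
  have hm : Measurable fun p : S2 × S2 => (dist p.1 p.2 ^ 2 / 4) ^ (-s) := by
    apply Measurable.pow_const
    exact (((continuous_fst.dist continuous_snd).pow 2).div_const 4).measurable
  refine ⟨hm.aestronglyMeasurable, ?_⟩
  unfold HasFiniteIntegral
  have h2 : ∀ p : S2 × S2, ‖(dist p.1 p.2 ^ 2 / 4) ^ (-s)‖ₑ =
      ENNReal.ofReal ((dist p.1 p.2 ^ 2 / 4) ^ (-s)) := by
    intro p
    rw [Real.enorm_eq_ofReal (by positivity)]
  simp_rw [h2]
  rw [lintegral_prod _ hm.ennreal_ofReal.aemeasurable]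
  calc ∫⁻ x, ∫⁻ y, ENNReal.ofReal ((dist x y ^ 2 / 4) ^ (-s)) ∂nu ∂nu
      ≤ ∫⁻ _x : S2, Cb s ∂nu := by
        apply lintegral_mono
        intro x
        exact (lintegral_mono fun y => ofReal_kernel_le hs0 x y).trans (lintegral_maj_le s x)
    _ = Cb s := by rw [lintegral_const, measure_univ, mul_one]
    _ < ∞ := Cb_lt_top hs

end Pool.Agent.helper78.SG
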