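import Mathlib
import Pool.Agent.helper78.SG.E1
import Pool.Agent.helper78.SG.E2
import Pool.Agent.helper28.SG.Base
import Pool.Agent.helper26.SG.Null
import Pool.Agent.helper40.SG.W1

/-!
# The Green field is the characteristic polynomial (MP_55470d_pr, module E3)
-/

set_option autoImplicit false
open MeasureTheory ProbabilityTheory Filter Topology
open scoped NNReal ENNReal

namespace Pool.Agent.helper78.SG
open Pool.Agent.helper84.SG

/-- the Green field as a sum over the eigenvalues -/
lemma Ln_eq {n : ℕ} (M : (Fin n → Fin n → ℂ) × (Fin n → Fin n → ℂ)) (x : S2) :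
    Ln M x = ((Matrix.of M.1 * (Matrix.of M.2)⁻¹).charpoly.roots.map fun z : ℂ =>
      gfun x (sterInv (z : OnePoint ℂ))).sum := by
  unfold Ln
  first
  | rfl
  | simp only [Multiset.bind_def, Multiset.pure_def, Multiset.bind_singleton, Multiset.map_map,
      Function.comp_def]

section alg

variable {n : ℕ} (M : (Fin n → Fin n → ℂ) × (Fin n → Fin n → ℂ))

/-- the eigenvalues of `A B⁻¹` -/
noncomputable def evs : Multiset ℂ := (Matrix.of M.1 * (Matrix.of M.2)⁻¹).charpoly.roots

lemma card_evs : Multiset.card (evs M) = n := by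
  unfold evs
  rw [← (IsAlgClosed.splits _).natDegree_eq_card_roots, Matrix.charpoly_natDegree_eq_dim,
    Fintype.card_fin]

variable {M}

lemma det_lin (C : Matrix (Fin n) (Fin n) ℂ) (a b : ℂ) :
    (a • (1 : Matrix (Fin n) (Fin n) ℂ) - b • C).det =
      (C.charpoly.roots.map fun z => a - b * z).prod := by
  have hcard : Multiset.card C.charpoly.roots = n := by
    rw [← (IsAlgClosed.splits _).natDegree_eq_card_roots, Matrix.charpoly_natDegree_eq_dim,
      Fintype.card_fin]
  by_cases hb : b = 0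
  · subst hb
    simp only [zero_smul, sub_zero, zero_mul, Multiset.map_const', Multiset.prod_replicate]
    rw [Matrix.det_smul, Matrix.det_one, hcard, Fintype.card_fin, mul_one]
  · have h1 : a • (1 : Matrix (Fin n) (Fin n) ℂ) - b • C =
        b • (Matrix.scalar (Fin n) (a / b) - C) := by
      ext i j
      simp only [Matrix.sub_apply, Matrix.smul_apply, smul_eq_mul, Matrix.scalar_apply,
        Matrix.one_apply, Matrix.diagonal_apply]
      split_ifs
      · field_simp
      · ring
    rw [h1, Matrix.det_smul, ← Matrix.eval_charpoly,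
      (IsAlgClosed.splits _).eval_eq_prod_roots_of_monic (Matrix.charpoly_monic C),
      Fintype.card_fin]
    have h2 : (C.charpoly.roots.map fun z => a - b * z) =
        C.charpoly.roots.map fun z => b * (a / b - z) := by
      apply Multiset.map_congr rfl
      intro z _
      field_simp
    rw [h2, Multiset.prod_map_mul, Multiset.map_const', Multiset.prod_replicate, hcard]

lemma pf_eq (hM : (Matrix.of M.2).det ≠ 0) (e : ℂ × ℂ) :
    pf M e = (Matrix.of M.2).det * ((evs M).map fun z => e.1 - e.2 * z).prod := by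
  unfold pf evs
  rw [← det_lin, mul_comm, ← Matrix.det_mul]
  congr 1
  rw [Matrix.sub_mul, Matrix.smul_mul, Matrix.one_mul, Matrix.smul_mul, Matrix.mul_assoc,
    Matrix.nonsing_inv_mul _ (isUnit_iff_ne_zero.2 hM), Matrix.mul_one]

lemma ppoly_eq' (hM : (Matrix.of M.2).det ≠ 0) :
    ppoly M = Polynomial.C (Matrix.of M.2).det *
      (Matrix.of M.1 * (Matrix.of M.2)⁻¹).charpoly := by
  unfold ppoly Matrix.charpoly Matrix.charmatrix
  rw [RingHom.map_det, mul_comm, ← Matrix.det_mul]
  congr 1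
  rw [Matrix.sub_mul]
  congr 1
  · ext i j
    simp [Matrix.scalar_apply, Matrix.diagonal_mul]
  · have h1 : ((Polynomial.C : ℂ →+* Polynomial ℂ).mapMatrix
        (Matrix.of M.1 * (Matrix.of M.2)⁻¹)) * (Polynomial.C : ℂ →+* Polynomial ℂ).mapMatrix
          (Matrix.of M.2) = (Polynomial.C : ℂ →+* Polynomial ℂ).mapMatrix (Matrix.of M.1) := by
      rw [← map_mul, Matrix.mul_assoc, Matrix.nonsing_inv_mul _ (isUnit_iff_ne_zero.2 hM),
        Matrix.mul_one]
    exact h1.symm

lemma Wc_eq (hM : (Matrix.of M.2).det ≠ 0) :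
    Wc (pcoef n (ppoly M)) = ‖(Matrix.of M.2).det‖ *
      ((evs M).map fun z => Real.sqrt (1 + ‖z‖ ^ 2)).prod := by
  have hdeg : (ppoly M).natDegree ≤ n := by
    rw [ppoly_eq' hM]
    refine (Polynomial.natDegree_C_mul_le _ _).trans ?_
    rw [Matrix.charpoly_natDegree_eq_dim, Fintype.card_fin]
  unfold Wc
  rw [Pool.Agent.helper40.SG.ofc_pcoef hdeg, ppoly_eq' hM, Polynomial.leadingCoeff_mul,
    Polynomial.leadingCoeff_C, Matrix.charpoly_monic, mul_one,
    Polynomial.roots_C_mul _ hM]
  rfl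

theorem Wc_pos (hM : (Matrix.of M.2).det ≠ 0) : 0 < Wc (pcoef n (ppoly M)) := by
  rw [Wc_eq hM]
  apply mul_pos (norm_pos_iff.2 hM)
  apply Multiset.prod_pos
  intro a ha
  obtain ⟨z, -, rfl⟩ := Multiset.mem_map.1 ha
  positivity

lemma norm_prod_map (s : Multiset ℂ) (f : ℂ → ℂ) :
    ‖(s.map f).prod‖ = (s.map fun z => ‖f z‖).prod := by
  induction s using Multiset.induction_on with
  | empty => simp
  | cons a s ih => simp [ih]

lemma prod_map_le (s : Multiset ℂ) (f g : ℂ → ℝ) (h0 : ∀ z, 0 ≤ f z) (h : ∀ z, f z ≤ g z) :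
    (s.map f).prod ≤ (s.map g).prod := by
  induction s using Multiset.induction_on with
  | empty => simp
  | cons a s ih =>
    simp only [Multiset.map_cons, Multiset.prod_cons]
    apply mul_le_mul (h a) ih _ ((h0 a).trans (h a))
    apply Multiset.prod_nonneg
    intro b hb
    obtain ⟨z, -, rfl⟩ := Multiset.mem_map.1 hb
    exact h0 z

lemma norm_lin_le {e : ℂ × ℂ} (he : Unit2 e) (z : ℂ) :
    ‖e.1 - e.2 * z‖ ≤ Real.sqrt (1 + ‖z‖ ^ 2) := by
  apply Real.le_sqrt_of_sq_le
  have h1 : ‖e.1 - e.2 * z‖ ≤ ‖e.1‖ + ‖e.2‖ * ‖z‖ := by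
    refine (norm_sub_le _ _).trans ?_
    rw [norm_mul]
  unfold Unit2 at he
  have h2 : ‖e.1 - e.2 * z‖ ^ 2 ≤ (‖e.1‖ + ‖e.2‖ * ‖z‖) ^ 2 := by gcongr
  nlinarith [sq_nonneg (‖e.1‖ * ‖z‖ - ‖e.2‖)]

theorem pf_le_Wc (hM : (Matrix.of M.2).det ≠ 0) (x : S2) :
    ‖pf M (ev x)‖ ≤ Wc (pcoef n (ppoly M)) := by
  rw [Wc_eq hM, pf_eq hM, norm_mul, norm_prod_map]
  apply mul_le_mul_of_nonneg_left _ (norm_nonneg _)
  exact prod_map_le _ _ _ (fun z => norm_nonneg _) (fun z => norm_lin_le (unit2_ev x) z)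

lemma exp_sum_log (s : Multiset ℂ) (f : ℂ → ℝ) (h : ∀ z ∈ s, 0 < f z) :
    Real.exp ((s.map fun z => Real.log (f z)).sum) = (s.map f).prod := by
  induction s using Multiset.induction_on with
  | empty => simp
  | cons a s ih =>
    simp only [Multiset.map_cons, Multiset.sum_cons, Multiset.prod_cons, Real.exp_add]
    rw [ih fun z hz => h z (Multiset.mem_cons_of_mem hz), Real.exp_log (h a (Multiset.mem_cons_self a s))]

lemma prod_div (s : Multiset ℂ) (f g : ℂ → ℝ) :
    (s.map fun z => f z / g z).prod = (s.map f).prod / (s.map g).prod := by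
  induction s using Multiset.induction_on with
  | empty => simp
  | cons a s ih => simp [ih, div_mul_div_comm]

lemma factor_ne (hM : (Matrix.of M.2).det ≠ 0) {x : S2} (hx : pf M (ev x) ≠ 0) :
    ∀ z ∈ evs M, (ev x).1 - (ev x).2 * z ≠ 0 := by
  intro z hz h0
  apply hx
  rw [pf_eq hM]
  rw [Multiset.prod_eq_zero, mul_zero]
  rw [Multiset.mem_map]
  exact ⟨z, hz, h0⟩

theorem exp_Ln (hM : (Matrix.of M.2).det ≠ 0) (x : S2) (hx : pf M (ev x) ≠ 0) :
    Real.exp (Ln M x) = ‖pf M (ev x)‖ / Wc (pcoef n (ppoly M)) := by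
  have h1 : Ln M x = ((evs M).map fun z => Real.log (‖(ev x).1 - (ev x).2 * z‖ /
      Real.sqrt (1 + ‖z‖ ^ 2))).sum := by
    rw [Ln_eq]
    unfold gfun evs
    congr 1
    apply Multiset.map_congr rfl
    intro z _
    rw [norm_sub_sterInv]
  rw [h1, exp_sum_log _ (fun z => ‖(ev x).1 - (ev x).2 * z‖ / Real.sqrt (1 + ‖z‖ ^ 2)), prod_div,
    Wc_eq hM, pf_eq hM, norm_mul, norm_prod_map, mul_div_mul_left _ _ (norm_ne_zero_iff.2 hM)]
  intro z hz
  have := norm_pos_iff.2 (factor_ne hM hx z hz)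
  positivity

end alg

theorem Ln_nonpos {n : ℕ} (M : (Fin n → Fin n → ℂ) × (Fin n → Fin n → ℂ)) (x : S2) :
    Ln M x ≤ 0 := by
  rw [Ln_eq]
  unfold gfun
  have hsum : ∀ s : Multiset ℝ, (∀ a ∈ s, a ≤ 0) → s.sum ≤ 0 := by
    intro s hs
    induction s using Multiset.induction_on with
    | empty => simp
    | cons a s ih =>
      rw [Multiset.sum_cons]
      have h1 := hs a (Multiset.mem_cons_self a s)
      have h2 := ih fun b hb => hs b (Multiset.mem_cons_of_mem hb)
      linarith
  apply hsum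
  intro a ha
  obtain ⟨z, -, rfl⟩ := Multiset.mem_map.1 ha
  apply Real.log_nonpos (by positivity)
  rw [div_le_one (by norm_num)]
  have h1 := norm_sub_le (x : E3) (sterInv (z : OnePoint ℂ) : E3)
  have h2 := mem_sphere_zero_iff_norm.1 x.2
  have h3 := mem_sphere_zero_iff_norm.1 (sterInv (z : OnePoint ℂ)).2
  rw [h2, h3] at h1
  linarith

theorem measurable_Ln {n : ℕ} (M : (Fin n → Fin n → ℂ) × (Fin n → Fin n → ℂ)) :
    Measurable (Ln M) := by
  have h0 : Ln M = fun x => ((Matrix.of M.1 * (Matrix.of M.2)⁻¹).charpoly.roots.map fun z : ℂ =>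
      gfun x (sterInv (z : OnePoint ℂ))).sum := funext fun x => Ln_eq M x
  rw [h0]
  unfold gfun
  generalize (Matrix.of M.1 * (Matrix.of M.2)⁻¹).charpoly.roots = s
  induction s using Multiset.induction_on with
  | empty => simp
  | cons a s ih =>
    simp only [Multiset.map_cons, Multiset.sum_cons]
    apply Measurable.add _ ih
    apply Real.measurable_log.comp
    apply Measurable.div_const
    have : Continuous fun x : S2 => ‖(x : E3) - (sterInv (a : OnePoint ℂ) : E3)‖ := by fun_prop
    exact this.measurable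

/-- the zeros of the field -/
lemma zero_subset {n : ℕ} (M : (Fin n → Fin n → ℂ) × (Fin n → Fin n → ℂ))
    (hM : (Matrix.of M.2).det ≠ 0) (x : S2) (hx : pf M (ev x) = 0) :
    x ∈ (fun z : ℂ => inv2 z) '' {z | z ∈ evs M} := by
  rw [pf_eq hM] at hx
  rcases mul_eq_zero.1 hx with h | h
  · exact absurd h hM
  · rw [Multiset.prod_eq_zero_iff, Multiset.mem_map] at h
    obtain ⟨z, hz, h0⟩ := h
    refine ⟨z, hz, ?_⟩
    have h1 := norm_sub_sterInv x z
    rw [h0, norm_zero, zero_div, sterInv_coe] at h1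
    have h2 : ‖(x : E3) - (inv2 z : E3)‖ = 0 := by linarith
    rw [norm_eq_zero, sub_eq_zero] at h2
    exact Subtype.ext h2.symm

theorem ae_x_pf_ne_zero_of {n : ℕ} (hnu : ∀ x : S2, nu {x} = 0)
    (M : (Fin n → Fin n → ℂ) × (Fin n → Fin n → ℂ))
    (hM : (Matrix.of M.2).det ≠ 0) : ∀ᵐ x ∂nu, pf M (ev x) ≠ 0 := by
  classical
  have hfin : Set.Finite ((fun z : ℂ => inv2 z) '' {z | z ∈ evs M}) :=
    (Multiset.finite_toSet (evs M)).image _
  have h0 : nu ((fun z : ℂ => inv2 z) '' {z | z ∈ evs M}) = 0 := by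
    obtain ⟨t, ht⟩ := hfin.exists_finset_coe
    rw [← ht]
    rw [← Finset.sup_singleton_eq_self t, Finset.sup_eq_biUnion]
    simp only [Finset.coe_biUnion, Finset.coe_singleton]
    refine (measure_biUnion_null_iff (Finset.countable_toSet t)).2 fun x _ => hnu x
  rw [ae_iff]
  apply measure_mono_null _ h0
  intro x hx
  simp only [ne_eq, not_not, Set.mem_ofPred_eq] at hx
  exact zero_subset M hM x hx

/-- finitely many zeros -/
theorem ae_x_pf_ne_zero {n : ℕ} (M : (Fin n → Fin n → ℂ) × (Fin n → Fin n → ℂ))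
    (hM : (Matrix.of M.2).det ≠ 0) : ∀ᵐ x ∂nu, pf M (ev x) ≠ 0 :=
  ae_x_pf_ne_zero_of nu_singleton M hM

/-! ### almost every pencil is nonsingular at a given point -/

lemma gin_ac (m n : ℕ) : gin m n ≪ (volume : Measure (Fin m → Fin n → ℂ)) := by
  rw [Pool.Agent.helper28.SG.gin_eq]
  exact withDensity_absolutelyContinuous _ _

lemma ae_det_vol (n : ℕ) : ∀ᵐ B : Fin n → Fin n → ℂ, (Matrix.of B).det ≠ 0 := by
  cases n with
  | zero => exact Eventually.of_forall fun B => by simp
  | succ N => exact Pool.Agent.helper26.SG.ae_det N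

/-- affine images -/
lemma ae_affine (n : ℕ) {a : ℂ} (ha : a ≠ 0) (K : Fin n → Fin n → ℂ) :
    ∀ᵐ B : Fin n → Fin n → ℂ, (Matrix.of (a • B + K)).det ≠ 0 := by
  have h := ae_det_vol n
  have e : Measure.QuasiMeasurePreserving (fun B : Fin n → Fin n → ℂ => a • B + K) volume volume := by
    have h1 : Measure.QuasiMeasurePreserving (fun B : Fin n → Fin n → ℂ => B + K) volume volume :=
      (measurePreserving_add_right volume K).quasiMeasurePreserving
    have h2 : Measure.QuasiMeasurePreserving (fun B : Fin n → Fin n → ℂ => a • B) volume volume := by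
      refine ⟨measurable_const_smul a, ?_⟩
      let L : (Fin n → Fin n → ℂ) ≃ₗ[ℝ] (Fin n → Fin n → ℂ) :=
        (LinearEquiv.smulOfNeZero ℂ (Fin n → Fin n → ℂ) a ha).restrictScalars ℝ
      have hL : (fun B : Fin n → Fin n → ℂ => a • B) = L := rfl
      rw [hL]
      have hd : LinearMap.det (L : (Fin n → Fin n → ℂ) →ₗ[ℝ] (Fin n → Fin n → ℂ)) ≠ 0 :=
        (LinearEquiv.isUnit_det' L).ne_zero
      have := Measure.map_linearMap_addHaar_eq_smul_addHaar
        (μ := (volume : Measure (Fin n → Fin n → ℂ))) hd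
      rw [LinearEquiv.coe_coe] at this
      rw [this]
      exact Measure.smul_absolutelyContinuous
    exact h1.comp h2
  exact e.ae h

theorem ae_M_pf_ne_zero (n : ℕ) (e : ℂ × ℂ) (he : Unit2 e) : ∀ᵐ M ∂(pen n), pf M e ≠ 0 := by
  have hmeas : MeasurableSet {M : (Fin n → Fin n → ℂ) × (Fin n → Fin n → ℂ) | pf M e ≠ 0} := by
    have hc : Continuous fun M : (Fin n → Fin n → ℂ) × (Fin n → Fin n → ℂ) => pf M e := by
      unfold pf
      apply Continuous.matrix_det
      have c1 : Continuous fun M : (Fin n → Fin n → ℂ) × (Fin n → Fin n → ℂ) => Matrix.of M.2 :=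
        continuous_snd
      have c2 : Continuous fun M : (Fin n → Fin n → ℂ) × (Fin n → Fin n → ℂ) => Matrix.of M.1 :=
        continuous_fst
      exact (c1.const_smul e.1).sub (c2.const_smul e.2)
    exact (isOpen_ne_fun hc continuous_const).measurableSet
  unfold pen
  by_cases h1 : e.1 = 0
  · have h2 : e.2 ≠ 0 := by
      intro h2
      unfold Unit2 at he
      rw [h1, h2] at he
      simp at he
    have hs : ∀ᵐ M ∂((gin n n).prod (gin n n)), pf (M.2, M.1) e ≠ 0 := by
      rw [Measure.ae_prod_iff_ae_ae]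
      · refine Eventually.of_forall fun A => ?_
        apply (gin_ac n n).ae_le
        filter_upwards [ae_affine n (neg_ne_zero.2 h2) (e.1 • A)] with B hB
        intro h0
        apply hB
        rw [← h0]
        unfold pf
        congr 1
        ext i j
        simp
        ring
      · exact hmeas.preimage measurable_swap
    have := (Measure.measurePreserving_swap (μ := gin n n) (ν := gin n n)).quasiMeasurePreserving.ae
      hs
    exact this
  · rw [Measure.ae_prod_iff_ae_ae]
    · refine Eventually.of_forall fun A => ?_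
      apply (gin_ac n n).ae_le
      filter_upwards [ae_affine n h1 (-(e.2 • A))] with B hB
      intro h0
      apply hB
      rw [← h0]
      unfold pf
      congr 1
    · exact hmeas

end Pool.Agent.helper78.SG
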